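import Pool.Agent.N150.JN.Main
set_option autoImplicit false

/-!
# Q1 for coverings
-/

open MvPolynomial Pool.Agent.Y129.TA Pool.Agent.Y129.TB Pool.Agent.R388.TP

set_option linter.unusedSectionVars false

namespace Pool.Agent.N150.JN

/-- The weights: the coordinates `x_i` have weight `1`, the additional coordinates `z_j` have weight
`w j`. -/
def wt (n : ℕ) {b : ℕ} (w : Fin b → ℕ) : Fin (n + 1) ⊕ Fin b → ℕ :=
  Sum.elim (fun _ => 1) w

/-- The image under `f` of the set of the points `(x, z)` with `x` in `X` and `Φ j (x, z) = 0` for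
all `j`. -/
def weightedImage {C K : Type} [Field C] [Field K] [Algebra K C] {n b c N : ℕ}
    (X : Set (Fin (n + 1) → C)) (Φ : Fin c → MvPolynomial (Fin (n + 1) ⊕ Fin b) K)
    (f : Fin (N + 1) → MvPolynomial (Fin (n + 1) ⊕ Fin b) K) : Set (Fin (N + 1) → C) :=
  {y | ∃ x ∈ X, ∃ z : Fin b → C, (∀ j, aeval (Sum.elim x z) (Φ j) = 0) ∧
    ∀ i, y i = aeval (Sum.elim x z) (f i)}

/-- A weighted homogeneous polynomial in forms whose degrees are the weights. -/
theorem weighted_aeval {k σ τ : Type} [Field k] {w : σ → ℕ} {P : MvPolynomial σ k} {D : ℕ}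
    (hP : IsWeightedHomogeneous w P D) {u : σ → MvPolynomial τ k}
    (hu : ∀ i, (u i).IsHomogeneous (w i)) : (aeval u P).IsHomogeneous D := by
  classical
  rw [aeval_def, eval₂_eq]
  refine IsHomogeneous.sum _ _ _ fun a ha => ?_
  have h1 : (∏ i ∈ a.support, u i ^ a i).IsHomogeneous (∑ i ∈ a.support, w i * a i) :=
    IsHomogeneous.prod _ _ _ fun i _ => (hu i).pow _
  have h2 : ∑ i ∈ a.support, w i * a i = D := by
    have h3 := hP (mem_support_iff.1 ha)
    rw [Finsupp.weight_apply, Finsupp.sum] at h3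
    rw [← h3]
    exact Finset.sum_congr rfl fun i _ => by rw [smul_eq_mul, mul_comm]
  rw [h2] at h1
  have h4 := (isHomogeneous_C τ (coeff a P)).mul h1
  rw [zero_add] at h4
  exact h4

variable {p : ℕ} [hp : Fact p.Prime] {C F K E : Type} [Field C] [Field F] [CharP F p] [Field K]
  [Field E] [Algebra K C] [Algebra E F] [IsAlgClosed C] [IsAlgClosed F]

theorem cone_univ (k L : Type) [Field k] [Field L] [Algebra k L] (ι : Type) :
    IsConeOver k (Set.univ : Set (ι → L)) := by
  refine ⟨⟨⊥, ?_⟩, fun _ _ _ => trivial⟩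
  ext x
  simp [mem_zeroLocus_iff]

theorem dimGE_univ (L : Type) [Field L] [IsAlgClosed L] (b : ℕ) :
    DimGE (Set.univ : Set (Fin (b + 1) → L)) b := by
  classical
  let A : Fin (b + 1) → Fin (b + 1) → ℕ := fun i l => if i = l then 1 else 0
  have hA : ∀ i, ∑ l, A i l = 1 := fun i => by simp [A]
  have huniv : toricCone L A = Set.univ := by
    ext x
    simp only [Set.mem_univ, iff_true]
    intro u v huv
    have h1 : u = v := by
      funext l
      have h2 := huv l
      simpa [A] using h2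
    rw [h1]
  have hk : LinearIndependent ℚ fun (j : Fin (b + 1)) (l : Fin (b + 1)) => (A (id j) l : ℚ) := by
    have h1 : (fun (j : Fin (b + 1)) (l : Fin (b + 1)) => (A (id j) l : ℚ)) =
        ⇑(Pi.basisFun ℚ (Fin (b + 1))) := by
      funext j l
      rw [Pi.basisFun_apply]
      simp only [A, id, Pi.single_apply]
      by_cases h : j = l
      · simp [h]
      · simp [h, Ne.symm h]
    rw [h1]
    exact (Pi.basisFun ℚ (Fin (b + 1))).linearIndependent
  rw [← huniv]
  exact dimGE_toric L one_pos hA id hk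

/-- Q1 holds for the projective space itself. -/
theorem q1_univ (T : Tilting p C F) (b : ℕ) :
    Q1 T K E (Set.univ : Set (Fin (b + 1) → C)) b := by
  classical
  haveI : Infinite C := IsAlgClosed.instInfinite
  refine ⟨cone_univ _ _ _, dimGE_univ C b, ?_, ?_⟩
  · refine ⟨fun j => MvPolynomial.X j, fun j => ⟨1, one_pos, isHomogeneous_X _ _⟩, fun y _ h => ?_⟩
    funext j
    simpa using h j
  · intro r P D hPD hPX ε hε
    have hP0 : ∀ k, P k = 0 := by
      intro k
      apply map_injective (algebraMap K C) (algebraMap K C).injective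
      rw [map_zero]
      refine MvPolynomial.funext fun x => ?_
      rw [eval_map_alg, map_zero]
      exact hPX k x (Set.mem_univ x)
    refine ⟨Set.univ, cone_univ _ _ _, dimGE_univ F b, ?_, ?_⟩
    · refine ⟨fun j => MvPolynomial.X j, fun j => ⟨1, one_pos, isHomogeneous_X _ _⟩,
        fun y _ h => ?_⟩
      funext j
      simpa using h j
    · intro y _ k B hB
      have hB0 : 0 ≤ B := (T.absF.nonneg _).trans (hB 0)
      rw [hP0 k, map_zero, map_zero]
      positivity

/-- **Q1 for weighted complete intersections over a closed subset.** -/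
theorem q1_weighted {n d b c N d' e : ℕ} (T : Tilting p C F) (B : BaseField T K E)
    {X : Set (Fin (n + 1) → C)} (hX : Q1 T K E X d) (hdim : d + (b + 1) = d' + c)
    (w : Fin (b + 1) → ℕ) (hw : ∀ j, 0 < w j)
    (Φ : Fin c → MvPolynomial (Fin (n + 1) ⊕ Fin (b + 1)) K)
    (hΦ : ∀ j, ∃ D, 0 < D ∧ IsWeightedHomogeneous (wt n w) (Φ j) D)
    (q : Fin (d' + 1) → MvPolynomial (Fin (n + 1) ⊕ Fin (b + 1)) K)
    (hq : ∀ j, ∃ D, 0 < D ∧ IsWeightedHomogeneous (wt n w) (q j) D)
    (hq0 : ∀ x ∈ X, ∀ z : Fin (b + 1) → C, (∀ j, aeval (Sum.elim x z) (Φ j) = 0) →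
      (∀ j, aeval (Sum.elim x z) (q j) = 0) → x = 0 ∧ z = 0)
    (he : 0 < e) (f : Fin (N + 1) → MvPolynomial (Fin (n + 1) ⊕ Fin (b + 1)) K)
    (hf : ∀ i, IsWeightedHomogeneous (wt n w) (f i) e)
    (hf0 : ∀ x ∈ X, ∀ z : Fin (b + 1) → C, (∀ j, aeval (Sum.elim x z) (Φ j) = 0) →
      (∀ i, aeval (Sum.elim x z) (f i) = 0) → x = 0 ∧ z = 0) :
    Q1 T K E (weightedImage X Φ f) d' := by
  classical
  let u : Fin (n + 1) ⊕ Fin (b + 1) → MvPolynomial (Fin (n + 1 + b + 1)) K :=
    Sum.elim (fun i => MvPolynomial.X (Fin.castAdd (b + 1) i : Fin (n + 1 + (b + 1))))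
      (fun j => MvPolynomial.X (Fin.natAdd (n + 1) j : Fin (n + 1 + (b + 1))) ^ w j)
  have hu : ∀ i, (u i).IsHomogeneous (wt n w i) := by
    rintro (i | j)
    · exact isHomogeneous_X _ _
    · exact isHomogeneous_X_pow _ _
  have hJ := q1_join T hX (q1_univ (K := K) (E := E) T b)
  -- the values
  have hval : ∀ (t : Fin (n + 1 + b + 1) → C) (P : MvPolynomial (Fin (n + 1) ⊕ Fin (b + 1)) K),
      aeval t (aeval u P) = aeval (Sum.elim (fun i => t (Fin.castAdd (b + 1) i : Fin (n + 1 + (b + 1))))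
        (fun j => t (Fin.natAdd (n + 1) j : Fin (n + 1 + (b + 1))) ^ w j)) P := by
    intro t P
    rw [← AlgHom.comp_apply, comp_aeval]
    congr 2
    funext i
    rcases i with i | j
    · simp [u]
    · simp [u]
  have hzero : ∀ t : Fin (n + 1 + b + 1) → C,
      (fun i => t (Fin.castAdd (b + 1) i : Fin (n + 1 + (b + 1)))) = 0 →
      (fun j => t (Fin.natAdd (n + 1) j : Fin (n + 1 + (b + 1))) ^ w j) = 0 → t = 0 := by
    intro t h1 h2
    funext s
    refine Fin.addCases (m := n + 1) (n := b + 1) (motive := fun s => t s = 0) (fun i => ?_)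
      (fun i => ?_) s
    · exact congrFun h1 i
    · exact (pow_eq_zero_iff (hw i).ne').1 (congrFun h2 i)
  have himg : weightedImage X Φ f = sectionImage (joinIn X Set.univ) (fun j => aeval u (Φ j))
      (fun i => aeval u (f i)) := by
    ext y
    constructor
    · rintro ⟨x, hx, z, h1, h2⟩
      choose s hs using fun j => IsAlgClosed.exists_pow_nat_eq (z j) (hw j)
      let t : Fin (n + 1 + b + 1) → C := Fin.append (m := n + 1) (n := b + 1) x s
      have ht1 : (fun i => t (Fin.castAdd (b + 1) i : Fin (n + 1 + (b + 1)))) = x :=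
        funext fun i => Fin.append_left _ _ _
      have ht2 : (fun j => t (Fin.natAdd (n + 1) j : Fin (n + 1 + (b + 1))) ^ w j) = z :=
        funext fun j => by
          change Fin.append (m := n + 1) (n := b + 1) x s (Fin.natAdd (n + 1) j) ^ w j = z j
          rw [Fin.append_right, hs]
      refine ⟨t, ⟨?_, Set.mem_univ _⟩, fun j => ?_, fun i => ?_⟩
      · rw [ht1]
        exact hx
      · rw [hval, ht1, ht2]
        exact h1 j
      · rw [hval, ht1, ht2]
        exact h2 i
    · rintro ⟨t, ht, h1, h2⟩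
      refine ⟨_, ht.1, (fun j => t (Fin.natAdd (n + 1) j : Fin (n + 1 + (b + 1))) ^ w j),
        fun j => ?_, fun i => ?_⟩
      · rw [← hval]
        exact h1 j
      · rw [h2 i, hval]
  rw [himg]
  have hdim' : d + b + 1 = d' + c := by omega
  rw [hdim'] at hJ
  refine q1_image T B hJ _ (fun j => ?_) _ he (fun i => weighted_aeval (hf i) hu) ?_ ?_
  · obtain ⟨D, hD, h⟩ := hΦ j
    exact ⟨D, hD, weighted_aeval h hu⟩
  · intro t ht h1 h2
    obtain ⟨h3, h4⟩ := hf0 _ ht.1 (fun j => t (Fin.natAdd (n + 1) j : Fin (n + 1 + (b + 1))) ^ w j)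
      (fun j => by rw [← hval]; exact h1 j) (fun j => by rw [← hval]; exact h2 j)
    exact hzero t h3 h4
  · refine ⟨fun j => aeval u (q j), fun j => ?_, fun t ht h2 => ?_⟩
    · obtain ⟨D, hD, h⟩ := hq j
      exact ⟨D, hD, weighted_aeval h hu⟩
    · obtain ⟨h3, h4⟩ := hq0 _ ht.1.1
        (fun j => t (Fin.natAdd (n + 1) j : Fin (n + 1 + (b + 1))) ^ w j)
        (fun j => by rw [← hval]; exact ht.2 j) (fun j => by rw [← hval]; exact h2 j)
      exact hzero t h3 h4

end Pool.Agent.N150.JN
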