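import Pool.Agent.N150.JN.Join
set_option autoImplicit false

/-!
# The dimension of the image of a closed cone is at most the dimension of the cone
-/

open MvPolynomial Pool.Agent.Y129.TA Pool.Agent.Y129.TB Pool.Agent.R388.TP

namespace Pool.Agent.N150.JN

section chain

variable {F : Type} [Field F] [IsAlgClosed F] {α : Type} [Finite α]

/-- A chain of prime ideals of length `d + 1` gives dimension at least `d`. -/
theorem dimGE_of_chain {J : Ideal (MvPolynomial α F)} {d : ℕ} (h : HasChain J (d + 1)) :
    DimGE (zeroLocus F J) d := by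
  classical
  intro q hq
  by_contra hno
  push Not at hno
  have hno' : ∀ w : α → F, w ∈ zeroLocus F J → (∀ j, eval w (q j) = 0) → w = 0 := by
    intro w hw hw2
    by_contra hw0
    obtain ⟨j, hj⟩ := hno w hw hw0
    exact hj (hw2 j)
  obtain ⟨s, hs, hs1, hs2⟩ := h
  have hmem : ∀ i, s i ∈ PrimeSpectrum.zeroLocus (J : Set (MvPolynomial α F)) := fun i => by
    have h1 : s.head ≤ s i := s.monotone (Fin.zero_le i)
    exact hs1.trans ((PrimeSpectrum.asIdeal_le_asIdeal _ _).2 h1)
  let e := Ideal.primeSpectrumQuotientOrderIsoZeroLocus J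
  let t : LTSeries (PrimeSpectrum (MvPolynomial α F ⧸ J)) :=
    { length := s.length
      toFun := fun i => e.symm ⟨s i, hmem i⟩
      step := fun i => e.symm.strictMono (s.step i) }
  set M : PrimeSpectrum (MvPolynomial α F ⧸ J) := t.last with hM
  have hMc : M.asIdeal.comap (Ideal.Quotient.mk J) = vanishingIdeal F {(0 : α → F)} := by
    have h1 : e M = ⟨s.last, hmem _⟩ := e.apply_symm_apply _
    have h2 : (e M).1.asIdeal = s.last.asIdeal := by rw [h1]
    rw [← hs2, ← h2]
    rfl
  have hmax0 : (vanishingIdeal F {(0 : α → F)} : Ideal (MvPolynomial α F)).IsMaximal :=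
    isMaximal_iff_eq_vanishingIdeal_singleton.2 ⟨0, rfl⟩
  have hMmax : M.asIdeal.IsMaximal := by
    have h1 : (M.asIdeal.comap (Ideal.Quotient.mk J)).IsMaximal := by rw [hMc]; exact hmax0
    have h2 := Ideal.map_comap_of_surjective (Ideal.Quotient.mk J) Ideal.Quotient.mk_surjective
      M.asIdeal
    rcases Ideal.map_eq_top_or_isMaximal_of_surjective (Ideal.Quotient.mk J)
      Ideal.Quotient.mk_surjective h1 with h3 | h3
    · rw [h2] at h3
      exact absurd h3 M.2.ne_top
    · rwa [h2] at h3
  have hht : ((d + 1 : ℕ) : ℕ∞) ≤ M.asIdeal.height := by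
    have h1 : (t.length : ℕ∞) ≤ Order.height t.last := Order.length_le_height_last
    have h2 : t.length = d + 1 := hs
    rw [h2, ← PrimeSpectrum.height_eq_orderHeight] at h1
    exact h1
  have hle := height_le_of_span M.asIdeal (fun j => Ideal.Quotient.mk J (q j)) (fun j => by
    change q j ∈ M.asIdeal.comap (Ideal.Quotient.mk J)
    rw [hMc, mem_vanishingIdeal_singleton_iff, aeval_eq_eval]
    have : Fintype α := Fintype.ofFinite _
    exact form_zero (hq j)) (fun Q hQ hQq => by
    have hQ' : (Q.comap (Ideal.Quotient.mk J)).IsPrime := Ideal.comap_isPrime _ _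
    have h1 : vanishingIdeal F {(0 : α → F)} ≤ Q.comap (Ideal.Quotient.mk J) := by
      refine le_of_zeroLocus fun w hw => hno' w ?_ fun j => ?_
      · rw [mem_zeroLocus_iff]
        intro f hf
        have h2 : f ∈ Q.comap (Ideal.Quotient.mk J) := by
          rw [Ideal.mem_comap, Ideal.Quotient.eq_zero_iff_mem.2 hf]
          exact Q.zero_mem
        exact (mem_zeroLocus_iff.1 hw) _ h2
      · have h2 : q j ∈ Q.comap (Ideal.Quotient.mk J) := hQq j
        have h3 := (mem_zeroLocus_iff.1 hw) _ h2
        rwa [aeval_eq_eval] at h3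
    intro b hb
    obtain ⟨f, rfl⟩ := Ideal.Quotient.mk_surjective b
    have h2 : f ∈ M.asIdeal.comap (Ideal.Quotient.mk J) := hb
    rw [hMc] at h2
    exact h1 h2)
  have h3 := hht.trans hle
  have h4 : d + 1 ≤ d := by exact_mod_cast h3
  omega

end chain

section image

variable {K C : Type} [Field K] [Field C] [Algebra K C]

/-- A linear form over an infinite subfield that does not vanish at the given nonzero points. -/
theorem exists_linear' [Infinite K] {ι : Type} [Finite ι] {W : Set (ι → C)} (hW : W.Finite)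
    (h0 : (0 : ι → C) ∉ W) :
    ∃ ℓ : MvPolynomial ι K, ℓ.IsHomogeneous 1 ∧ ∀ w ∈ W, aeval w ℓ ≠ 0 := by
  classical
  have : Fintype ι := Fintype.ofFinite ι
  let S := hW.toFinset
  let P : MvPolynomial ι C := ∏ w ∈ S, ∑ a, MvPolynomial.C (w a) * X a
  have hP : P ≠ 0 := by
    refine Finset.prod_ne_zero_iff.2 fun w hw hw0 => ?_
    have hw1 : w ∈ W := hW.mem_toFinset.1 hw
    have hw2 : w ≠ 0 := fun h => h0 (h ▸ hw1)
    obtain ⟨b, hb⟩ := Function.ne_iff.1 hw2
    apply hb
    have h1 := congrArg (eval (Pi.single b (1 : C))) hw0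
    simp only [map_sum, map_mul, eval_C, eval_X, map_zero] at h1
    rw [Finset.sum_eq_single b (fun a _ hab => by rw [Pi.single_eq_of_ne hab, mul_zero])
      (fun h => absurd (Finset.mem_univ b) h), Pi.single_eq_same, mul_one] at h1
    exact h1
  obtain ⟨c, hc⟩ : ∃ c : ι → K, eval (fun a => algebraMap K C (c a)) P ≠ 0 := by
    by_contra hno
    push Not at hno
    refine hP (funext_set (fun _ => Set.range (algebraMap K C))
      (fun _ => Set.infinite_range_of_injective (algebraMap K C).injective) fun x hx => ?_)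
    rw [map_zero]
    choose c hc using fun i => hx i (Set.mem_univ i)
    have h1 := hno c
    have h2 : (fun a => algebraMap K C (c a)) = x := funext hc
    rwa [h2] at h1
  refine ⟨∑ a, MvPolynomial.C (c a) * X a, ?_, fun w hw hw0 => ?_⟩
  · refine IsHomogeneous.sum _ _ _ fun a _ => ?_
    have h1 := (isHomogeneous_C ι (c a)).mul (isHomogeneous_X K a)
    simpa using h1
  · rw [map_prod] at hc
    have h1 := Finset.prod_ne_zero_iff.1 hc w (hW.mem_toFinset.2 hw)
    apply h1
    simp only [map_sum, map_mul, eval_C, eval_X, aeval_C, aeval_X] at hw0 ⊢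
    rw [← hw0]
    exact Finset.sum_congr rfl fun a _ => mul_comm _ _

variable [IsAlgClosed C] {α ι : Type} [Finite α] [Finite ι]

/-- The pullback of a polynomial under `f`. -/
noncomputable def pull (f : ι → MvPolynomial α C) (ℓ : MvPolynomial ι K) : MvPolynomial α C :=
  aeval f ℓ

theorem eval_pull' (f : ι → MvPolynomial α C) (ℓ : MvPolynomial ι K) (y : α → C) :
    eval y (pull f ℓ) = aeval (fun i => eval y (f i)) ℓ := by
  have h3 : ((aeval y : MvPolynomial α C →ₐ[C] C).restrictScalars K).comp (aeval f) =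
      (aeval (fun i => eval y (f i)) : MvPolynomial ι K →ₐ[K] C) := by
    ext t
    simp
  have h4 := congrArg (fun ψ : MvPolynomial ι K →ₐ[K] C => ψ ℓ) h3
  rw [← aeval_eq_eval]
  exact h4

theorem pull_form {f : ι → MvPolynomial α C} {e : ℕ} (hf : ∀ i, (f i).IsHomogeneous e)
    {ℓ : MvPolynomial ι K} (hℓ : ℓ.IsHomogeneous 1) : (pull f ℓ).IsHomogeneous e := by
  have h1 := (hℓ.map (algebraMap K C)).aeval f hf
  have h2 : aeval f (MvPolynomial.map (algebraMap K C) ℓ) = pull f ℓ := by
    rw [aeval_map_algebraMap]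
    rfl
  rw [h2, mul_one] at h1
  exact h1

/-- Linear forms over `K` in the coordinates of the target without common zeros on the image. -/
theorem exists_forms' [Infinite K] (f : ι → MvPolynomial α C) {e : ℕ}
    (hf : ∀ i, (f i).IsHomogeneous e) (d : ℕ) :
    ∀ J : Ideal (MvPolynomial α C), (∀ a : C, ∀ y ∈ zeroLocus C J, a • y ∈ zeroLocus C J) →
      (∀ y ∈ zeroLocus C J, (∀ i, eval y (f i) = 0) → y = 0) → ¬ HasChain J (d + 1) →
      ∃ q : Fin d → MvPolynomial ι K, (∀ j, (q j).IsHomogeneous 1) ∧
        ∀ y ∈ zeroLocus C J, (∀ j, aeval (fun i => eval y (f i)) (q j) = 0) → y = 0 := by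
  classical
  induction d with
  | zero =>
    intro J hJ _ h
    refine ⟨fun j => j.elim0, fun j => j.elim0, fun y hy _ => ?_⟩
    by_contra hy0
    exact h (hasChain_one hJ hy hy0)
  | succ d ih =>
    intro J hJ hJf h
    let g : Ideal (MvPolynomial α C) → (α → C) := fun P =>
      if hP : ∃ w ∈ zeroLocus C P, w ≠ 0 then hP.choose else 0
    have hg : ∀ P : Ideal (MvPolynomial α C), (∃ w ∈ zeroLocus C P, w ≠ 0) →
        g P ∈ zeroLocus C P ∧ g P ≠ 0 := by
      intro P hP
      have h1 : g P = hP.choose := dif_pos hP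
      rw [h1]
      exact hP.choose_spec
    let g' : Ideal (MvPolynomial α C) → (ι → C) := fun P i => eval (g P) (f i)
    have hfin : (g' '' J.minimalPrimes \ {0}).Finite :=
      ((Ideal.finite_minimalPrimes_of_isNoetherianRing _ J).image g').subset Set.sdiff_subset
    obtain ⟨ℓ, hℓ1, hℓ2⟩ := exists_linear' (K := K) hfin (by simp)
    obtain ⟨q, hq, hq0⟩ := ih (J ⊔ Ideal.span {pull f ℓ}) (fun a y hy => by
      rw [mem_sup_span] at hy ⊢
      refine ⟨hJ a y hy.1, ?_⟩
      have : Fintype α := Fintype.ofFinite α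
      have h1 := eval_smul_of_homogeneous (pull_form hf hℓ1) a y
      rw [hy.2, mul_zero] at h1
      exact h1) (fun y hy => hJf y (mem_sup_span.1 hy).1) (by
      rintro ⟨s, hs, hs1, hs2⟩
      obtain ⟨P, hP, hPs⟩ := Ideal.exists_minimalPrimes_le (le_sup_left.trans hs1 : J ≤ s.head.asIdeal)
      have hPp : P.IsPrime := hP.1.1
      refine h ⟨s.cons ⟨P, hPp⟩ ?_, ?_, ?_, ?_⟩
      · change (⟨P, hPp⟩ : PrimeSpectrum (MvPolynomial α C)) < s.head
        rw [← PrimeSpectrum.asIdeal_lt_asIdeal]
        refine lt_of_le_of_ne hPs fun he => ?_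
        have he' : P = s.head.asIdeal := he
        by_cases hw : ∃ w ∈ zeroLocus C P, w ≠ 0
        · obtain ⟨h1, h2⟩ := hg P hw
          have hne : g' P ≠ 0 := fun h3 =>
            h2 (hJf (g P) (zeroLocus_anti_mono hP.1.2 h1) fun i => congrFun h3 i)
          refine hℓ2 (g' P) ⟨⟨P, hP, rfl⟩, by simpa using hne⟩ ?_
          have h3 : pull f ℓ ∈ P := by
            rw [he']
            exact hs1 (Ideal.mem_sup_right (Ideal.subset_span (Set.mem_singleton _)))
          have h4 := (mem_zeroLocus_iff.1 h1) _ h3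
          rw [aeval_eq_eval, eval_pull'] at h4
          exact h4
        · push Not at hw
          have h1 := le_of_zeroLocus hw
          rw [he', ← hs2] at h1
          have h2 : s.head < s.last := by
            have h3 : (0 : Fin (s.length + 1)) < Fin.last s.length := by
              rw [Fin.lt_def]
              simp only [Fin.val_zero, Fin.val_last]
              omega
            exact s.strictMono h3
          rw [← PrimeSpectrum.asIdeal_lt_asIdeal] at h2
          exact absurd h1 (not_le_of_gt h2)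
      · rw [RelSeries.cons_length, hs]
      · rw [RelSeries.head_cons]
        exact hP.1.2
      · rw [RelSeries.last_cons, hs2])
    refine ⟨Fin.cons ℓ q, ?_, fun y hy hqy => ?_⟩
    · intro j
      refine Fin.cases ?_ (fun j => ?_) j
      · exact hℓ1
      · exact hq j
    · refine hq0 y (mem_sup_span.2 ⟨hy, ?_⟩) fun j => ?_
      · have h1 := hqy 0
        rw [eval_pull']
        simpa using h1
      · simpa using hqy j.succ

/-- **The dimension of an image.** If the cone `Z`, given by the forms `h`, has dimension at most `d`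
then so does its image under forms of the same degree without common zeros on `Z`. -/
theorem dimLEOver_image [Infinite K] {κ : Type} {h : κ → MvPolynomial α K}
    (hh : ∀ k, IsForm (h k)) {f : ι → MvPolynomial α K} {e : ℕ}
    (he : 0 < e) (hf : ∀ i, (f i).IsHomogeneous e) (h0 : NoCommonZero C h f) {d : ℕ}
    (hd : DimLEOver K {z : α → C | ∀ k, aeval z (h k) = 0} d) :
    DimLEOver K (imageOver C h f) d := by
  classical
  obtain ⟨q, hq, hq0⟩ := hd
  let f' : ι → MvPolynomial α C := fun i => MvPolynomial.map (algebraMap K C) (f i)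
  have hf' : ∀ i, (f' i).IsHomogeneous e := fun i => (hf i).map _
  let J : Ideal (MvPolynomial α C) :=
    Ideal.span (Set.range fun k => MvPolynomial.map (algebraMap K C) (h k))
  have hJ : zeroLocus C J = {z : α → C | ∀ k, aeval z (h k) = 0} := by
    rw [Pool.Agent.R388.TP.zeroLocus_span]
    ext z
    simp only [Set.mem_ofPred_eq, eval_map_alg]
  have hcone : ∀ a : C, ∀ y ∈ zeroLocus C J, a • y ∈ zeroLocus C J := by
    rw [hJ]
    exact (cone_of_forms (L := C) hh).2
  have hch : ¬ HasChain J (d + 1 + 1) := by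
    intro hc
    obtain ⟨y, hy, hy0, hqy⟩ := dimGE_of_chain hc (fun j => MvPolynomial.map (algebraMap K C) (q j))
      fun j => form_map (hq j)
    rw [hJ] at hy
    exact hy0 (hq0 y hy fun j => by rw [← eval_map_alg]; exact hqy j)
  obtain ⟨ℓ, hℓ, hℓ0⟩ := exists_forms' (K := K) f' hf' (d + 1) J hcone (by
    rw [hJ]
    intro y hy hy2
    exact h0 y hy fun i => by rw [← eval_map_alg]; exact hy2 i) hch
  refine ⟨ℓ, fun j => ⟨1, one_pos, hℓ j⟩, ?_⟩
  rintro x ⟨z, hz, hx⟩ hℓx
  have hz0 : z = 0 := by
    refine hℓ0 z (by rw [hJ]; exact hz) fun j => ?_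
    rw [← hℓx j]
    congr 2
    funext i
    rw [hx i]
    exact eval_map_alg _ _
  funext i
  rw [hx i, hz0]
  exact aeval_zero_form ⟨e, he, hf i⟩

end image

end Pool.Agent.N150.JN
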