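import Pool.Agent.N150.JN.Cover
set_option autoImplicit false

/-!
# Q1 for finite coverings given by weighted homogeneous equations
-/

open MvPolynomial Pool.Agent.Y129.TA Pool.Agent.Y129.TB Pool.Agent.R388.TP

set_option linter.unusedSectionVars false

namespace Pool.Agent.N150.JN

theorem weighted_inl {k : Type} [Field k] {n b D : ℕ} (w : Fin b → ℕ)
    {q : MvPolynomial (Fin (n + 1)) k} (hq : q.IsHomogeneous D) :
    IsWeightedHomogeneous (wt n w) (rename Sum.inl q) D := by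
  classical
  intro a ha
  obtain ⟨u, hu, hu0⟩ := coeff_rename_ne_zero _ _ _ ha
  have h1 := hq hu0
  rw [← hu, Finsupp.weight_apply, Finsupp.sum_mapDomain_index (fun _ => by simp)
    (fun _ _ _ => by simp [add_mul])]
  rw [Finsupp.weight_apply] at h1
  rw [← h1]
  rfl

variable {p : ℕ} [hp : Fact p.Prime] {C F K E : Type} [Field C] [Field F] [CharP F p] [Field K]
  [Field E] [Algebra K C] [Algebra E F] [IsAlgClosed C] [IsAlgClosed F]

/-- **Q1 for coverings.** -/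
theorem q1_cover {n d b N e : ℕ} (T : Tilting p C F) (B : BaseField T K E)
    {X : Set (Fin (n + 1) → C)} (hX : Q1 T K E X d)
    (w : Fin (b + 1) → ℕ) (hw : ∀ j, 0 < w j)
    (Φ : Fin (b + 1) → MvPolynomial (Fin (n + 1) ⊕ Fin (b + 1)) K)
    (hΦ : ∀ j, ∃ D, 0 < D ∧ IsWeightedHomogeneous (wt n w) (Φ j) D)
    (hfin : ∀ z : Fin (b + 1) → C, (∀ j, aeval (Sum.elim 0 z) (Φ j) = 0) → z = 0)
    (he : 0 < e) (f : Fin (N + 1) → MvPolynomial (Fin (n + 1) ⊕ Fin (b + 1)) K)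
    (hf : ∀ i, IsWeightedHomogeneous (wt n w) (f i) e)
    (hf0 : ∀ x ∈ X, ∀ z : Fin (b + 1) → C, (∀ j, aeval (Sum.elim x z) (Φ j) = 0) →
      (∀ i, aeval (Sum.elim x z) (f i) = 0) → x = 0 ∧ z = 0) :
    Q1 T K E (weightedImage X Φ f) d := by
  obtain ⟨q, hq, hq0⟩ := hX.le
  refine q1_weighted T B hX rfl w hw Φ hΦ (fun j => rename Sum.inl (q j)) (fun j => ?_)
    (fun x hx z h1 h2 => ?_) he f hf hf0
  · obtain ⟨D, hD, h⟩ := hq j
    exact ⟨D, hD, weighted_inl w h⟩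
  · have h3 : x = 0 := hq0 x hx fun j => by
      have h4 := h2 j
      rw [aeval_rename] at h4
      exact h4
    subst h3
    exact ⟨rfl, hfin z h1⟩

/-- **Q1 for cyclic coverings** `z ^ r = s (x)`. -/
theorem q1_cyclic {n d r m N e : ℕ} (T : Tilting p C F) (B : BaseField T K E)
    {X : Set (Fin (n + 1) → C)} (hX : Q1 T K E X d) (hr : 0 < r) (hm : 0 < m)
    (s : MvPolynomial (Fin (n + 1)) K) (hs : s.IsHomogeneous (r * m))
    (he : 0 < e) (f : Fin (N + 1) → MvPolynomial (Fin (n + 1) ⊕ Fin 1) K)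
    (hf : ∀ i, IsWeightedHomogeneous (wt n fun _ : Fin 1 => m) (f i) e)
    (hf0 : ∀ x ∈ X, ∀ z : C, z ^ r = aeval x s →
      (∀ i, aeval (Sum.elim x fun _ => z) (f i) = 0) → x = 0 ∧ z = 0) :
    Q1 T K E {y | ∃ x ∈ X, ∃ z : C, z ^ r = aeval x s ∧
      ∀ i, y i = aeval (Sum.elim x fun _ => z) (f i)} d := by
  let Φ : Fin 1 → MvPolynomial (Fin (n + 1) ⊕ Fin 1) K := fun _ =>
    MvPolynomial.X (Sum.inr 0) ^ r - rename Sum.inl s
  have hval : ∀ (x : Fin (n + 1) → C) (z : Fin 1 → C) j, aeval (Sum.elim x z) (Φ j) = 0 ↔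
      z 0 ^ r = aeval x s := by
    intro x z j
    simp only [Φ, map_sub, map_pow, aeval_X, Sum.elim_inr, aeval_rename, sub_eq_zero]
    rfl
  have hΦ : ∀ j, ∃ D, 0 < D ∧ IsWeightedHomogeneous (wt n fun _ : Fin 1 => m) (Φ j) D := by
    intro j
    refine ⟨r * m, Nat.mul_pos hr hm, ?_⟩
    have h1 : IsWeightedHomogeneous (wt n fun _ : Fin 1 => m)
        (MvPolynomial.X (Sum.inr 0) ^ r : MvPolynomial (Fin (n + 1) ⊕ Fin 1) K) (r * m) := by
      have h2 := (isWeightedHomogeneous_X K (wt n fun _ : Fin 1 => m) (Sum.inr 0)).pow r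
      exact h2
    have h3 := weighted_inl (n := n) (fun _ : Fin 1 => m) hs
    exact Submodule.sub_mem (weightedHomogeneousSubmodule K (wt n fun _ : Fin 1 => m) (r * m)) h1 h3
  have hz : ∀ z : Fin 1 → C, z = fun _ => z 0 := fun z => funext fun j => by
    rw [Subsingleton.elim j 0]
  have h1 := q1_cover (b := 0) T B hX (fun _ => m) (fun _ => hm) Φ hΦ (by
    intro z hz1
    have h2 := (hval 0 z 0).1 (hz1 0)
    have h3 : aeval (0 : Fin (n + 1) → C) s = 0 :=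
      aeval_zero_form ⟨r * m, Nat.mul_pos hr hm, hs⟩
    rw [h3] at h2
    rw [hz z, (pow_eq_zero_iff hr.ne').1 h2]
    rfl) he f hf (by
    intro x hx z h2 h3
    rw [hz z] at h3
    obtain ⟨h4, h5⟩ := hf0 x hx (z 0) ((hval x z 0).1 (h2 0)) h3
    refine ⟨h4, ?_⟩
    rw [hz z, h5]
    rfl)
  have h2 : weightedImage X Φ f = {y | ∃ x ∈ X, ∃ z : C, z ^ r = aeval x s ∧
      ∀ i, y i = aeval (Sum.elim x fun _ => z) (f i)} := by
    ext y
    constructor
    · rintro ⟨x, hx, z, h3, h4⟩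
      refine ⟨x, hx, z 0, (hval x z 0).1 (h3 0), ?_⟩
      rw [← hz z]
      exact h4
    · rintro ⟨x, hx, z, h3, h4⟩
      exact ⟨x, hx, fun _ => z, fun j => (hval x _ j).2 h3, h4⟩
  rw [← h2]
  exact h1

end Pool.Agent.N150.JN
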