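import Pool.Agent.N150.JN.Finite
set_option autoImplicit false

/-!
# Q1 for images of weighted complete intersections over joins
-/

open MvPolynomial Pool.Agent.Y129.TA Pool.Agent.Y129.TB Pool.Agent.R388.TP

set_option linter.unusedSectionVars false

namespace Pool.Agent.N150.JN

variable {p : ℕ} [hp : Fact p.Prime] {C F K E : Type} [Field C] [Field F] [CharP F p] [Field K]
  [Field E] [Algebra K C] [Algebra E F] [IsAlgClosed C] [IsAlgClosed F]

theorem q1_sub {m d c N e : ℕ} {σ : Type} (wσ : σ → ℕ) (T : Tilting p C F) (B : BaseField T K E)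
    {Z : Set (Fin (m + 1) → C)} (hZ : Q1 T K E Z (d + c))
    (u : σ → MvPolynomial (Fin (m + 1)) K) (hu : ∀ i, (u i).IsHomogeneous (wσ i))
    (W : Set (σ → C)) (h1 : ∀ t ∈ Z, (fun i => aeval t (u i)) ∈ W)
    (h2 : ∀ y ∈ W, ∃ t ∈ Z, (fun i => aeval t (u i)) = y)
    (h3 : ∀ t ∈ Z, (∀ i, aeval t (u i) = 0) → t = 0)
    (Φ : Fin c → MvPolynomial σ K) (hΦ : ∀ j, ∃ D, 0 < D ∧ IsWeightedHomogeneous wσ (Φ j) D)
    (q : Fin (d + 1) → MvPolynomial σ K)
    (hq : ∀ j, ∃ D, 0 < D ∧ IsWeightedHomogeneous wσ (q j) D)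
    (hq0 : ∀ y ∈ W, (∀ j, aeval y (Φ j) = 0) → (∀ j, aeval y (q j) = 0) → y = 0)
    (he : 0 < e) (f : Fin (N + 1) → MvPolynomial σ K)
    (hf : ∀ i, IsWeightedHomogeneous wσ (f i) e)
    (hf0 : ∀ y ∈ W, (∀ j, aeval y (Φ j) = 0) → (∀ i, aeval y (f i) = 0) → y = 0) :
    Q1 T K E {x | ∃ y ∈ W, (∀ j, aeval y (Φ j) = 0) ∧ ∀ i, x i = aeval y (f i)} d := by
  classical
  have hval : ∀ (t : Fin (m + 1) → C) (P : MvPolynomial σ K),
      aeval t (aeval u P) = aeval (fun i => aeval t (u i)) P := by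
    intro t P
    rw [← AlgHom.comp_apply, comp_aeval]
  have himg : {x : Fin (N + 1) → C | ∃ y ∈ W, (∀ j, aeval y (Φ j) = 0) ∧
      ∀ i, x i = aeval y (f i)} = sectionImage Z (fun j => aeval u (Φ j))
      (fun i => aeval u (f i)) := by
    ext x
    constructor
    · rintro ⟨y, hy, h4, h5⟩
      obtain ⟨t, ht, rfl⟩ := h2 y hy
      exact ⟨t, ht, fun j => by rw [hval]; exact h4 j, fun i => by rw [hval]; exact h5 i⟩
    · rintro ⟨t, ht, h4, h5⟩
      exact ⟨_, h1 t ht, fun j => by rw [← hval]; exact h4 j, fun i => by rw [h5 i, hval]⟩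
  rw [himg]
  refine q1_image T B hZ _ (fun j => ?_) _ he (fun i => weighted_aeval (hf i) hu) ?_ ?_
  · obtain ⟨D, hD, h⟩ := hΦ j
    exact ⟨D, hD, weighted_aeval h hu⟩
  · intro t ht h4 h5
    exact h3 t ht fun i => congrFun (hf0 _ (h1 t ht) (fun j => by rw [← hval]; exact h4 j)
      fun j => by rw [← hval]; exact h5 j) i
  · refine ⟨fun j => aeval u (q j), fun j => ?_, fun t ht h5 => ?_⟩
    · obtain ⟨D, hD, h⟩ := hq j
      exact ⟨D, hD, weighted_aeval h hu⟩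
    · exact h3 t ht.1 fun i => congrFun (hq0 _ (h1 t ht.1) (fun j => by rw [← hval]; exact ht.2 j)
        fun j => by rw [← hval]; exact h5 j) i

/-- The weights: the coordinates of `X₁` and `X₂` have weight `1`, the additional coordinates `z_j`
have weight `w j`. -/
def weights (n₁ n₂ : ℕ) {b : ℕ} (w : Fin b → ℕ) : Fin (n₁ + 1) ⊕ Fin (n₂ + 1) ⊕ Fin b → ℕ :=
  Sum.elim (fun _ => 1) (Sum.elim (fun _ => 1) w)

/-- The set `W` of the points `(x, y, z)` with `x` in `X₁`, `y` in `X₂` and `Φ j (x, y, z) = 0` for all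
`j`. -/
def solutions {C K : Type} [Field C] [Field K] [Algebra K C] {n₁ n₂ b c : ℕ}
    (X₁ : Set (Fin (n₁ + 1) → C)) (X₂ : Set (Fin (n₂ + 1) → C))
    (Φ : Fin c → MvPolynomial (Fin (n₁ + 1) ⊕ Fin (n₂ + 1) ⊕ Fin b) K) :
    Set (Fin (n₁ + 1) ⊕ Fin (n₂ + 1) ⊕ Fin b → C) :=
  {y | (fun i => y (Sum.inl i)) ∈ X₁ ∧ (fun j => y (Sum.inr (Sum.inl j))) ∈ X₂ ∧
    ∀ k, aeval y (Φ k) = 0}

/-- **Q1 for images of weighted complete intersections over joins.** -/
theorem q1_general {n₁ n₂ d₁ d₂ b c d N e : ℕ} (T : Tilting p C F) (B : BaseField T K E)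
    {X₁ : Set (Fin (n₁ + 1) → C)} {X₂ : Set (Fin (n₂ + 1) → C)} (hX₁ : Q1 T K E X₁ d₁)
    (hX₂ : Q1 T K E X₂ d₂) (hdim : d + c = d₁ + d₂ + 1 + b) (w : Fin b → ℕ) (hw : ∀ j, 0 < w j)
    (Φ : Fin c → MvPolynomial (Fin (n₁ + 1) ⊕ Fin (n₂ + 1) ⊕ Fin b) K)
    (hΦ : ∀ j, ∃ D, 0 < D ∧ IsWeightedHomogeneous (weights n₁ n₂ w) (Φ j) D)
    (q : Fin (d + 1) → MvPolynomial (Fin (n₁ + 1) ⊕ Fin (n₂ + 1) ⊕ Fin b) K)
    (hq : ∀ j, ∃ D, 0 < D ∧ IsWeightedHomogeneous (weights n₁ n₂ w) (q j) D)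
    (hq0 : ∀ y ∈ solutions X₁ X₂ Φ, (∀ j, aeval y (q j) = 0) → y = 0)
    (he : 0 < e) (f : Fin (N + 1) → MvPolynomial (Fin (n₁ + 1) ⊕ Fin (n₂ + 1) ⊕ Fin b) K)
    (hf : ∀ i, IsWeightedHomogeneous (weights n₁ n₂ w) (f i) e)
    (hf0 : ∀ y ∈ solutions X₁ X₂ Φ, (∀ i, aeval y (f i) = 0) → y = 0) :
    Q1 T K E {x | ∃ y ∈ solutions X₁ X₂ Φ, ∀ i, x i = aeval y (f i)} d := by
  classical
  let W : Set (Fin (n₁ + 1) ⊕ Fin (n₂ + 1) ⊕ Fin b → C) :=
    {y | (fun i => y (Sum.inl i)) ∈ X₁ ∧ (fun j => y (Sum.inr (Sum.inl j))) ∈ X₂}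
  have hset : {x : Fin (N + 1) → C | ∃ y ∈ solutions X₁ X₂ Φ, ∀ i, x i = aeval y (f i)} =
      {x | ∃ y ∈ W, (∀ j, aeval y (Φ j) = 0) ∧ ∀ i, x i = aeval y (f i)} := by
    ext x
    constructor
    · rintro ⟨y, ⟨h1, h2, h3⟩, h4⟩
      exact ⟨y, ⟨h1, h2⟩, h3, h4⟩
    · rintro ⟨y, ⟨h1, h2⟩, h3, h4⟩
      exact ⟨y, ⟨h1, h2, h3⟩, h4⟩
  rw [hset]
  have hJ := q1_join T hX₁ hX₂
  rcases b with _ | b
  · -- no additional coordinates
    have hd : d₁ + d₂ + 1 = d + c := by omega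
    rw [hd] at hJ
    let u : Fin (n₁ + 1) ⊕ Fin (n₂ + 1) ⊕ Fin 0 → MvPolynomial (Fin (n₁ + 1 + n₂ + 1)) K :=
      Sum.elim (fun i => MvPolynomial.X (Fin.castAdd (n₂ + 1) i : Fin (n₁ + 1 + (n₂ + 1))))
        (Sum.elim (fun j => MvPolynomial.X (Fin.natAdd (n₁ + 1) j : Fin (n₁ + 1 + (n₂ + 1))))
          fun k => k.elim0)
    refine q1_sub (weights n₁ n₂ w) T B hJ u ?_ W ?_ ?_ ?_ Φ hΦ q hq
      (fun y hy h1 => hq0 y ⟨hy.1, hy.2, h1⟩) he f hf (fun y hy h1 => hf0 y ⟨hy.1, hy.2, h1⟩)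
    · rintro (i | j | k)
      · exact isHomogeneous_X _ _
      · exact isHomogeneous_X _ _
      · exact k.elim0
    · intro t ht
      refine ⟨?_, ?_⟩
      · simp only [u, Sum.elim_inl, aeval_X]
        exact ht.1
      · simp only [u, Sum.elim_inl, Sum.elim_inr, aeval_X]
        exact ht.2
    · intro y hy
      let t : Fin (n₁ + 1 + n₂ + 1) → C := Fin.append (m := n₁ + 1) (n := n₂ + 1)
        (fun i => y (Sum.inl i)) (fun j => y (Sum.inr (Sum.inl j)))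
      have ht1 : ∀ i, t (Fin.castAdd (n₂ + 1) i : Fin (n₁ + 1 + (n₂ + 1))) = y (Sum.inl i) :=
        fun i => Fin.append_left _ _ _
      have ht2 : ∀ j, t (Fin.natAdd (n₁ + 1) j : Fin (n₁ + 1 + (n₂ + 1))) =
          y (Sum.inr (Sum.inl j)) := fun j => Fin.append_right _ _ _
      refine ⟨t, ⟨?_, ?_⟩, ?_⟩
      · simp only [ht1]
        exact hy.1
      · simp only [ht2]
        exact hy.2
      · funext a
        rcases a with i | j | k
        · simp only [u, Sum.elim_inl, aeval_X, ht1]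
        · simp only [u, Sum.elim_inl, Sum.elim_inr, aeval_X, ht2]
        · exact k.elim0
    · intro t ht h0
      funext s
      refine Fin.addCases (m := n₁ + 1) (n := n₂ + 1) (motive := fun s => t s = 0) (fun i => ?_)
        (fun j => ?_) s
      · have h1 := h0 (Sum.inl i)
        simpa [u] using h1
      · have h1 := h0 (Sum.inr (Sum.inl j))
        simpa [u] using h1
  · have hJ' := q1_join T hJ (q1_univ (K := K) (E := E) T b)
    have hd : d₁ + d₂ + 1 + b + 1 = d + c := by omega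
    rw [hd] at hJ'
    let u : Fin (n₁ + 1) ⊕ Fin (n₂ + 1) ⊕ Fin (b + 1) →
        MvPolynomial (Fin (n₁ + 1 + n₂ + 1 + b + 1)) K :=
      Sum.elim (fun i => MvPolynomial.X (Fin.castAdd (b + 1)
          (Fin.castAdd (n₂ + 1) i : Fin (n₁ + 1 + (n₂ + 1))) : Fin (n₁ + 1 + n₂ + 1 + (b + 1))))
        (Sum.elim (fun j => MvPolynomial.X (Fin.castAdd (b + 1)
          (Fin.natAdd (n₁ + 1) j : Fin (n₁ + 1 + (n₂ + 1))) : Fin (n₁ + 1 + n₂ + 1 + (b + 1))))
          fun k => MvPolynomial.X (Fin.natAdd (n₁ + 1 + n₂ + 1) k :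
            Fin (n₁ + 1 + n₂ + 1 + (b + 1))) ^ w k)
    refine q1_sub (weights n₁ n₂ w) T B hJ' u ?_ W ?_ ?_ ?_ Φ hΦ q hq
      (fun y hy h1 => hq0 y ⟨hy.1, hy.2, h1⟩) he f hf (fun y hy h1 => hf0 y ⟨hy.1, hy.2, h1⟩)
    · rintro (i | j | k)
      · exact isHomogeneous_X _ _
      · exact isHomogeneous_X _ _
      · exact isHomogeneous_X_pow _ _
    · intro t ht
      refine ⟨?_, ?_⟩
      · simp only [u, Sum.elim_inl, aeval_X]
        exact ht.1.1
      · simp only [u, Sum.elim_inl, Sum.elim_inr, aeval_X]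
        exact ht.1.2
    · intro y hy
      choose s hs using fun k => IsAlgClosed.exists_pow_nat_eq (y (Sum.inr (Sum.inr k))) (hw k)
      let t : Fin (n₁ + 1 + n₂ + 1 + b + 1) → C := Fin.append (m := n₁ + 1 + n₂ + 1) (n := b + 1)
        (Fin.append (m := n₁ + 1) (n := n₂ + 1) (fun i => y (Sum.inl i))
          (fun j => y (Sum.inr (Sum.inl j)))) s
      have ht1 : ∀ i, t (Fin.castAdd (b + 1) (Fin.castAdd (n₂ + 1) i : Fin (n₁ + 1 + (n₂ + 1))) :
          Fin (n₁ + 1 + n₂ + 1 + (b + 1))) = y (Sum.inl i) := fun i => by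
        change Fin.append (m := n₁ + 1 + n₂ + 1) (n := b + 1) _ s _ = _
        rw [Fin.append_left, Fin.append_left]
      have ht2 : ∀ j, t (Fin.castAdd (b + 1) (Fin.natAdd (n₁ + 1) j : Fin (n₁ + 1 + (n₂ + 1))) :
          Fin (n₁ + 1 + n₂ + 1 + (b + 1))) = y (Sum.inr (Sum.inl j)) := fun j => by
        change Fin.append (m := n₁ + 1 + n₂ + 1) (n := b + 1) _ s _ = _
        rw [Fin.append_left, Fin.append_right]
      have ht3 : ∀ k, t (Fin.natAdd (n₁ + 1 + n₂ + 1) k : Fin (n₁ + 1 + n₂ + 1 + (b + 1))) ^ w k =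
          y (Sum.inr (Sum.inr k)) := fun k => by
        change Fin.append (m := n₁ + 1 + n₂ + 1) (n := b + 1) _ s _ ^ w k = _
        rw [Fin.append_right, hs]
      refine ⟨t, ⟨⟨?_, ?_⟩, Set.mem_univ _⟩, ?_⟩
      · simp only [ht1]
        exact hy.1
      · simp only [ht2]
        exact hy.2
      · funext a
        rcases a with i | j | k
        · simp only [u, Sum.elim_inl, aeval_X, ht1]
        · simp only [u, Sum.elim_inl, Sum.elim_inr, aeval_X, ht2]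
        · simp only [u, Sum.elim_inr, map_pow, aeval_X, ht3]
    · intro t ht h0
      funext s
      refine Fin.addCases (m := n₁ + 1 + n₂ + 1) (n := b + 1) (motive := fun s => t s = 0)
        (fun a => ?_) (fun k => ?_) s
      · refine Fin.addCases (m := n₁ + 1) (n := n₂ + 1)
          (motive := fun a => t (Fin.castAdd (b + 1) (a : Fin (n₁ + 1 + n₂ + 1)) :
            Fin (n₁ + 1 + n₂ + 1 + (b + 1))) = 0) (fun i => ?_) (fun j => ?_) a
        · have h1 := h0 (Sum.inl i)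
          simpa [u] using h1
        · have h1 := h0 (Sum.inr (Sum.inl j))
          simpa [u] using h1
      · have h1 := h0 (Sum.inr (Sum.inr k))
        simp only [u, Sum.elim_inr, map_pow, aeval_X] at h1
        exact (pow_eq_zero_iff (hw k).ne').1 h1

end Pool.Agent.N150.JN
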