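import Pool.Agent.R388.TP.ProductMain
set_option autoImplicit false

/-!
# The join of two closed subsets of projective spaces: equations and dimension
-/

open MvPolynomial Pool.Agent.Y129.TA Pool.Agent.Y129.TB Pool.Agent.R388.TP
open scoped TensorProduct

namespace Pool.Agent.N150.JN

/-- The cone over the join of two closed subsets: the product of the two cones. -/
def join {C : Type} [Field C] {ι₁ ι₂ : Type} (Z₁ : Set (ι₁ → C)) (Z₂ : Set (ι₂ → C)) :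
    Set (ι₁ ⊕ ι₂ → C) :=
  {x | (fun i => x (Sum.inl i)) ∈ Z₁ ∧ (fun j => x (Sum.inr j)) ∈ Z₂}

section eqs

variable {K L : Type} [Field K] [Field L] [Algebra K L] {ι₁ ι₂ : Type} {r₁ r₂ : ℕ}

/-- The equations of the join. -/
noncomputable def joinEqs (g₁ : Fin r₁ → MvPolynomial ι₁ K) (g₂ : Fin r₂ → MvPolynomial ι₂ K) :
    Fin r₁ ⊕ Fin r₂ → MvPolynomial (ι₁ ⊕ ι₂) K :=
  Sum.elim (fun l => rename Sum.inl (g₁ l)) (fun l => rename Sum.inr (g₂ l))

theorem joinEqs_form {g₁ : Fin r₁ → MvPolynomial ι₁ K} {g₂ : Fin r₂ → MvPolynomial ι₂ K}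
    (h₁ : ∀ l, IsForm (g₁ l)) (h₂ : ∀ l, IsForm (g₂ l)) (a) : IsForm (joinEqs g₁ g₂ a) := by
  rcases a with a | a
  · obtain ⟨D, hD, h⟩ := h₁ a
    exact ⟨D, hD, h.rename_isHomogeneous⟩
  · obtain ⟨D, hD, h⟩ := h₂ a
    exact ⟨D, hD, h.rename_isHomogeneous⟩

theorem join_eq (g₁ : Fin r₁ → MvPolynomial ι₁ K) (g₂ : Fin r₂ → MvPolynomial ι₂ K) :
    join {y : ι₁ → L | ∀ l, aeval y (g₁ l) = 0} {z : ι₂ → L | ∀ l, aeval z (g₂ l) = 0} =
      {x | ∀ a, aeval x (joinEqs g₁ g₂ a) = 0} := by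
  ext x
  constructor
  · rintro ⟨h1, h2⟩ (a | a)
    · simp only [joinEqs, Sum.elim_inl, aeval_rename]
      exact h1 a
    · simp only [joinEqs, Sum.elim_inr, aeval_rename]
      exact h2 a
  · intro h
    refine ⟨fun l => ?_, fun l => ?_⟩
    · have h1 := h (Sum.inl l)
      simp only [joinEqs, Sum.elim_inl, aeval_rename] at h1
      exact h1
    · have h1 := h (Sum.inr l)
      simp only [joinEqs, Sum.elim_inr, aeval_rename] at h1
      exact h1

end eqs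

section dim

variable {F : Type} [Field F] [IsAlgClosed F] {ι₁ ι₂ : Type} [Finite ι₁] [Finite ι₂] {r₁ r₂ : ℕ}

open Cardinal in
/-- The dimension of a join. -/
theorem dimGE_join {g₁ : Fin r₁ → MvPolynomial ι₁ F} {g₂ : Fin r₂ → MvPolynomial ι₂ F}
    (h₁ : ∀ l, IsForm (g₁ l)) (h₂ : ∀ l, IsForm (g₂ l)) {d₁ d₂ : ℕ}
    (hd₁ : DimGE {y : ι₁ → F | ∀ l, eval y (g₁ l) = 0} d₁)
    (hd₂ : DimGE {z : ι₂ → F | ∀ l, eval z (g₂ l) = 0} d₂) :
    DimGE {x | ∀ a, eval x (joinEqs g₁ g₂ a) = 0} (d₁ + d₂ + 1) := by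
  classical
  intro q hq
  by_contra hno
  push Not at hno
  have hcone : ∀ {ι : Type} [Finite ι] {r : ℕ} {g : Fin r → MvPolynomial ι F},
      (∀ l, IsForm (g l)) → ∀ a : F, ∀ y ∈ zeroLocus F (Ideal.span (Set.range g)),
        a • y ∈ zeroLocus F (Ideal.span (Set.range g)) := by
    intro ι _ r g hg a y hy
    have := Fintype.ofFinite ι
    rw [Pool.Agent.R388.TP.zeroLocus_span] at hy ⊢
    intro l
    obtain ⟨D, hD, h⟩ := hg l
    have h1 := eval_smul_of_homogeneous h a y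
    rw [hy l, mul_zero] at h1
    exact h1
  rw [← Pool.Agent.R388.TP.zeroLocus_span] at hd₁ hd₂
  obtain ⟨P₁, hP₁, hJ₁, z₁, hz₁⟩ := exists_algInd (hcone h₁) hd₁
  obtain ⟨P₂, hP₂, hJ₂, z₂, hz₂⟩ := exists_algInd (hcone h₂) hd₂
  obtain ⟨Q, hQ, hw⟩ := exists_domain hz₁ hz₂
  let T := (MvPolynomial ι₁ F ⧸ P₁) ⊗[F] (MvPolynomial ι₂ F ⧸ P₂)
  let R := T ⧸ Q
  let φ₁ : MvPolynomial ι₁ F →ₐ[F] R := (Ideal.Quotient.mkₐ F Q).comp
    (Algebra.TensorProduct.includeLeft.comp (Ideal.Quotient.mkₐ F P₁))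
  let φ₂ : MvPolynomial ι₂ F →ₐ[F] R := (Ideal.Quotient.mkₐ F Q).comp
    (Algebra.TensorProduct.includeRight.comp (Ideal.Quotient.mkₐ F P₂))
  have hφ₁ : ∀ l, φ₁ (g₁ l) = 0 := by
    intro l
    have h1 : Ideal.Quotient.mkₐ F P₁ (g₁ l) = 0 :=
      Ideal.Quotient.eq_zero_iff_mem.2 (hJ₁ (Ideal.subset_span ⟨l, rfl⟩))
    simp only [φ₁, AlgHom.comp_apply, h1, map_zero]
  have hφ₂ : ∀ l, φ₂ (g₂ l) = 0 := by
    intro l
    have h1 : Ideal.Quotient.mkₐ F P₂ (g₂ l) = 0 :=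
      Ideal.Quotient.eq_zero_iff_mem.2 (hJ₂ (Ideal.subset_span ⟨l, rfl⟩))
    simp only [φ₂, AlgHom.comp_apply, h1, map_zero]
  have hφ₁' : ∀ f, φ₁ f = aeval (fun i => φ₁ (X i)) f := fun f => by
    have h1 : φ₁ = aeval (fun i => φ₁ (X i)) := by
      ext i
      rw [aeval_X]
    exact congrArg (fun ψ : MvPolynomial ι₁ F →ₐ[F] R => ψ f) h1
  have hφ₂' : ∀ f, φ₂ f = aeval (fun i => φ₂ (X i)) f := fun f => by
    have h1 : φ₂ = aeval (fun i => φ₂ (X i)) := by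
      ext i
      rw [aeval_X]
    exact congrArg (fun ψ : MvPolynomial ι₂ F →ₐ[F] R => ψ f) h1
  -- the map from the ring of the join
  let θ : MvPolynomial (ι₁ ⊕ ι₂) F →ₐ[F] R :=
    aeval (Sum.elim (fun i => φ₁ (X i)) (fun j => φ₂ (X j)))
  have hθ₁ : ∀ f, θ (rename Sum.inl f) = φ₁ f := fun f => by
    rw [hφ₁']
    simp only [θ, aeval_rename]
    rfl
  have hθ₂ : ∀ f, θ (rename Sum.inr f) = φ₂ f := fun f => by
    rw [hφ₂']
    simp only [θ, aeval_rename]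
    rfl
  let I : Ideal (MvPolynomial (ι₁ ⊕ ι₂) F) := Ideal.span (Set.range (joinEqs g₁ g₂))
  have hI : I ≤ RingHom.ker θ := by
    refine Ideal.span_le.2 ?_
    rintro _ ⟨a, rfl⟩
    change θ (joinEqs g₁ g₂ a) = 0
    rcases a with a | a
    · simp only [joinEqs, Sum.elim_inl]
      rw [hθ₁, hφ₁]
    · simp only [joinEqs, Sum.elim_inr]
      rw [hθ₂, hφ₂]
  let θ' : (MvPolynomial (ι₁ ⊕ ι₂) F ⧸ I) →ₐ[F] R := Ideal.Quotient.liftₐ I θ fun a ha => hI ha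
  have hθ' : ∀ f, θ' (Ideal.Quotient.mkₐ F I f) = θ f := fun f => rfl
  have hform := joinEqs_form h₁ h₂
  choose Dg hDg hDg' using hform
  have hhom : ∀ f ∈ I, ∀ n, homogeneousComponent n f ∈ I := fun f hf n =>
    homogeneousComponent_mem_of_mem (Pool.Agent.Y129.TA.span_isHomogeneous _ Dg hDg') hf n
  have hint := integral_of_no_zero hhom q hq (fun w hw1 hw2 => by
    by_contra hw0
    rw [Pool.Agent.R388.TP.zeroLocus_span] at hw1
    obtain ⟨j, hj⟩ := hno w hw1 hw0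
    exact hj (hw2 j))
  let S : Set R := Set.range fun k => θ (q k)
  let B := Algebra.adjoin F S
  have hall : ∀ g : MvPolynomial (ι₁ ⊕ ι₂) F, IsAlgebraic B (θ g) := by
    intro g
    obtain ⟨P, hP, hPa⟩ := hint (Ideal.Quotient.mkₐ F I g)
    have hmem : ∀ r : MvPolynomial (Fin (d₁ + d₂ + 1)) F, aeval (fun k => θ (q k)) r ∈ B := by
      intro r
      change _ ∈ Algebra.adjoin F (Set.range fun k => θ (q k))
      rw [Algebra.adjoin_range_eq_range_aeval]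
      exact ⟨r, rfl⟩
    let ψ : MvPolynomial (Fin (d₁ + d₂ + 1)) F →+* B :=
      ((aeval fun k => θ (q k)).codRestrict _ hmem).toRingHom
    have h4 : IsIntegral B (θ g) := by
      refine ⟨P.map ψ, hP.map ψ, ?_⟩
      rw [Polynomial.eval₂_map]
      have h5 := congrArg θ' hPa
      rw [map_zero, ← AlgHom.coe_toRingHom, Polynomial.hom_eval₂] at h5
      have h7 : (algebraMap B R).comp ψ = θ'.toRingHom.comp
          (aeval fun j => Ideal.Quotient.mkₐ F I (q j)).toRingHom := by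
        refine MvPolynomial.ringHom_ext (fun c => ?_) fun k => ?_
        · change (aeval fun k => θ (q k)) (C c) =
            θ' ((aeval fun j => Ideal.Quotient.mkₐ F I (q j)) (C c))
          rw [aeval_C, aeval_C, AlgHom.commutes]
        · change (aeval fun k => θ (q k)) (X k) =
            θ' ((aeval fun j => Ideal.Quotient.mkₐ F I (q j)) (X k))
          rw [aeval_X, aeval_X, hθ']
      rw [h7]
      exact h5
    exact h4.isAlgebraic
  have halg : Algebra.IsAlgebraic B R := by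
    constructor
    intro a
    obtain ⟨t, rfl⟩ := Ideal.Quotient.mk_surjective a
    rw [← Subalgebra.mem_algebraicClosure]
    induction t using TensorProduct.induction_on with
    | zero => rw [map_zero]; exact zero_mem _
    | tmul a b =>
      obtain ⟨f, rfl⟩ := Ideal.Quotient.mk_surjective a
      obtain ⟨g, rfl⟩ := Ideal.Quotient.mk_surjective b
      have h3 : Ideal.Quotient.mk Q (Ideal.Quotient.mk P₁ f ⊗ₜ[F] Ideal.Quotient.mk P₂ g) =
          θ (rename Sum.inl f) * θ (rename Sum.inr g) := by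
        rw [hθ₁, hθ₂]
        change _ = Ideal.Quotient.mk Q (Ideal.Quotient.mk P₁ f ⊗ₜ[F] 1) *
          Ideal.Quotient.mk Q (1 ⊗ₜ[F] Ideal.Quotient.mk P₂ g)
        rw [← map_mul, Algebra.TensorProduct.tmul_mul_tmul, mul_one, one_mul]
      rw [h3]
      exact mul_mem (hall _) (hall _)
    | add s t hs ht => rw [map_add]; exact add_mem hs ht
  have h4 : Algebra.trdeg F R ≤ #S := Algebra.IsAlgebraic.trdeg_le_cardinalMk F S
  have h5 := hw.cardinalMk_le_trdeg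
  have h7 : #S ≤ #(Fin (d₁ + d₂ + 1)) := Cardinal.mk_range_le
  have h8 := h5.trans (h4.trans h7)
  rw [Cardinal.mk_fin, Cardinal.mk_sum, Cardinal.lift_id, Cardinal.lift_id, Cardinal.mk_fin,
    Cardinal.mk_fin] at h8
  have h9 : d₁ + 1 + (d₂ + 1) ≤ d₁ + d₂ + 1 := by exact_mod_cast h8
  omega

theorem dimLE_join {Y₁ : Set (ι₁ → F)} {Y₂ : Set (ι₂ → F)} {d₁ d₂ : ℕ} (h₁ : DimLE Y₁ d₁)
    (h₂ : DimLE Y₂ d₂) : DimLE (join Y₁ Y₂) (d₁ + d₂ + 1) := by
  classical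
  obtain ⟨q₁, hq₁, h0₁⟩ := h₁
  obtain ⟨q₂, hq₂, h0₂⟩ := h₂
  have hcard : Fintype.card (Fin (d₁ + 1) ⊕ Fin (d₂ + 1)) = d₁ + d₂ + 1 + 1 := by
    rw [Fintype.card_sum, Fintype.card_fin, Fintype.card_fin]
    omega
  let e : Fin (d₁ + d₂ + 1 + 1) ≃ Fin (d₁ + 1) ⊕ Fin (d₂ + 1) :=
    (Fintype.equivFinOfCardEq hcard).symm
  let q : Fin (d₁ + 1) ⊕ Fin (d₂ + 1) → MvPolynomial (ι₁ ⊕ ι₂) F :=
    Sum.elim (fun j => rename Sum.inl (q₁ j)) (fun j => rename Sum.inr (q₂ j))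
  have hform : ∀ a, IsForm (q a) := by
    rintro (a | a)
    · obtain ⟨D, hD, h⟩ := hq₁ a
      exact ⟨D, hD, h.rename_isHomogeneous⟩
    · obtain ⟨D, hD, h⟩ := hq₂ a
      exact ⟨D, hD, h.rename_isHomogeneous⟩
  refine ⟨fun j => q (e j), fun j => hform _, fun y hy hq => ?_⟩
  · have hq' : ∀ a, eval y (q a) = 0 := fun a => by
      have h3 := hq (e.symm a)
      change eval y (q (e (e.symm a))) = 0 at h3
      rw [Equiv.apply_symm_apply] at h3
      exact h3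
    have h3 := h0₁ _ hy.1 fun j => by
      have h4 := hq' (Sum.inl j)
      simp only [q, Sum.elim_inl, eval_rename] at h4
      exact h4
    have h5 := h0₂ _ hy.2 fun j => by
      have h4 := hq' (Sum.inr j)
      simp only [q, Sum.elim_inr, eval_rename] at h4
      exact h4
    funext t
    rcases t with t | t
    · exact congrFun h3 t
    · exact congrFun h5 t

end dim

section dim'

variable {k L : Type} [Field k] [Field L] [IsAlgClosed L] [Algebra k L] {ι₁ ι₂ : Type}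
  [Finite ι₁] [Finite ι₂] {r₁ r₂ : ℕ}

theorem dimGE_join' {g₁ : Fin r₁ → MvPolynomial ι₁ k} {g₂ : Fin r₂ → MvPolynomial ι₂ k}
    (h₁ : ∀ l, IsForm (g₁ l)) (h₂ : ∀ l, IsForm (g₂ l)) {d₁ d₂ : ℕ}
    (hd₁ : DimGE {y : ι₁ → L | ∀ l, aeval y (g₁ l) = 0} d₁)
    (hd₂ : DimGE {z : ι₂ → L | ∀ l, aeval z (g₂ l) = 0} d₂) :
    DimGE (join {y : ι₁ → L | ∀ l, aeval y (g₁ l) = 0} {z : ι₂ → L | ∀ l, aeval z (g₂ l) = 0})
      (d₁ + d₂ + 1) := by
  have e : ∀ {ι : Type} {r : ℕ} (g : Fin r → MvPolynomial ι k),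
      {y : ι → L | ∀ l, aeval y (g l) = 0} =
        {y : ι → L | ∀ l, aeval y (MvPolynomial.map (algebraMap k L) (g l)) = 0} := by
    intro ι r g
    ext y
    simp only [Set.mem_ofPred_eq, aeval_map_algebraMap]
  have e' : ∀ {ι κ : Type} (g : κ → MvPolynomial ι L),
      {y : ι → L | ∀ l, aeval y (g l) = 0} = {y : ι → L | ∀ l, eval y (g l) = 0} := by
    intro ι κ g
    ext y
    simp only [Set.mem_ofPred_eq, aeval_eq_eval]
  have f₁ : ∀ l, IsForm (MvPolynomial.map (algebraMap k L) (g₁ l)) := fun l => form_map (h₁ l)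
  have f₂ : ∀ l, IsForm (MvPolynomial.map (algebraMap k L) (g₂ l)) := fun l => form_map (h₂ l)
  rw [e g₁, e' fun l => MvPolynomial.map (algebraMap k L) (g₁ l)] at hd₁
  rw [e g₂, e' fun l => MvPolynomial.map (algebraMap k L) (g₂ l)] at hd₂
  rw [e g₁, e g₂, join_eq, e']
  exact dimGE_join f₁ f₂ hd₁ hd₂

end dim'

variable {p : ℕ} [hp : Fact p.Prime] {C F K E : Type} [Field C] [Field F] [CharP F p] [Field K]
  [Field E] [Algebra K C] [Algebra E F] {ι₁ ι₂ : Type} [Fintype ι₁] [Fintype ι₂]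

omit hp [CharP F p] in
theorem approximable_join [Fact p.Prime] [CharP F p] [IsAlgClosed C] [IsAlgClosed F]
    [Nonempty ι₁] [Nonempty ι₂]
    (T : Tilting p C F) {X₁ : Set (ι₁ → C)} {X₂ : Set (ι₂ → C)} {d₁ d₂ : ℕ}
    (h₁ : IsConeOver K X₁) (h₂ : IsConeOver K X₂)
    (ha₁ : Approximable T.toTiltPair K E X₁ d₁) (ha₂ : Approximable T.toTiltPair K E X₂ d₂) :
    IsConeOver K (join X₁ X₂) ∧ DimGE (join X₁ X₂) (d₁ + d₂ + 1) ∧
      Approximable T.toTiltPair K E (join X₁ X₂) (d₁ + d₂ + 1) := by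
  classical
  haveI : Infinite C := IsAlgClosed.instInfinite
  haveI : Infinite F := IsAlgClosed.instInfinite
  obtain ⟨r₁, g₁, hg₁, hX₁⟩ := exists_gens h₁ (nonempty_of_approximable T.toTiltPair ha₁)
  obtain ⟨r₂, g₂, hg₂, hX₂⟩ := exists_gens h₂ (nonempty_of_approximable T.toTiltPair ha₂)
  have hd₁ := dimGE_of_small T (small_of_approximable T.toTiltPair g₁ hg₁ hX₁ ha₁)
  have hd₂ := dimGE_of_small T (small_of_approximable T.toTiltPair g₂ hg₂ hX₂ ha₂)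
  refine ⟨?_, ?_, ?_⟩
  · rw [hX₁, hX₂, join_eq]
    exact cone_of_forms (joinEqs_form hg₁ hg₂)
  · rw [hX₁, hX₂]
    exact dimGE_join' hg₁ hg₂ hd₁ hd₂
  intro r P DP hPD hPX ε hε
  -- the equations in the two groups of variables
  let G : Fin r₁ ⊕ Fin r₂ → MvPolynomial (ι₁ ⊕ ι₂) C :=
    Sum.elim (fun l => rename Sum.inl (MvPolynomial.map (algebraMap K C) (g₁ l)))
      (fun l => rename Sum.inr (MvPolynomial.map (algebraMap K C) (g₂ l)))
  let P' : Fin r → MvPolynomial (ι₁ ⊕ ι₂) C := fun k => MvPolynomial.map (algebraMap K C) (P k)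
  have hG₁ : ∀ (v : ι₁ ⊕ ι₂ → C) l,
      eval v (G (Sum.inl l)) = aeval (fun i => v (Sum.inl i)) (g₁ l) := by
    intro v l
    simp only [G, Sum.elim_inl, eval_rename]
    exact eval_map_alg _ _
  have hG₂ : ∀ (v : ι₁ ⊕ ι₂ → C) l,
      eval v (G (Sum.inr l)) = aeval (fun i => v (Sum.inr i)) (g₂ l) := by
    intro v l
    simp only [G, Sum.elim_inr, eval_rename]
    exact eval_map_alg _ _
  have hP' : ∀ (v : ι₁ ⊕ ι₂ → C) k, eval v (P' k) = aeval v (P k) := fun v k => eval_map_alg _ _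
  have s : ∀ k : Fin r, ∃ δ : ℝ, 0 < δ ∧ ∀ v : ι₁ ⊕ ι₂ → C, (∀ i, T.absK (v i) ≤ 1) →
      (∀ l, T.absK (eval v (G l)) ≤ δ) → T.absK (eval v (P' k)) ≤ ε := by
    intro k
    refine small T.ultraK _ _ (fun v hv => ?_) hε
    rw [hP']
    refine hPX k _ ⟨?_, ?_⟩
    · rw [hX₁]
      intro l
      rw [← hG₁]
      exact hv _
    · rw [hX₂]
      intro l
      rw [← hG₂]
      exact hv _
  choose δ₀ hδ₀ hs using s
  obtain ⟨δ, hδ, hδ'⟩ := exists_pos_le δ₀ hδ₀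
  choose D₁ hD₁ hgD₁ using hg₁
  choose D₂ hD₂ hgD₂ using hg₂
  obtain ⟨Y₁, hY₁, hY₁d, hY₁d', hY₁t⟩ := ha₁ r₁ g₁ D₁ hgD₁
    (fun k x hx => by rw [hX₁] at hx; exact hx k) δ hδ
  obtain ⟨Y₂, hY₂, hY₂d, hY₂d', hY₂t⟩ := ha₂ r₂ g₂ D₂ hgD₂
    (fun k x hx => by rw [hX₂] at hx; exact hx k) δ hδ
  obtain ⟨s₁, G₁, hG₁f, hYG₁⟩ := exists_gens hY₁ (dimGE_nonempty hY₁d)
  obtain ⟨s₂, G₂, hG₂f, hYG₂⟩ := exists_gens hY₂ (dimGE_nonempty hY₂d)
  have hcone : IsConeOver E (join Y₁ Y₂) := by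
    rw [hYG₁, hYG₂, join_eq]
    exact cone_of_forms (joinEqs_form hG₁f hG₂f)
  refine ⟨join Y₁ Y₂, hcone, ?_, dimLE_join hY₁d' hY₂d', ?_⟩
  · rw [hYG₁] at hY₁d ⊢
    rw [hYG₂] at hY₂d ⊢
    exact dimGE_join' hG₁f hG₂f hY₁d hY₂d
  intro x hx k B hB
  have hB0 : 0 ≤ B := (T.absF.nonneg _).trans (hB (Classical.arbitrary _))
  by_cases h0 : x = 0
  · have h3 : (fun t => T.sharp (x t)) = (0 : ι₁ ⊕ ι₂ → C) := by
      funext t
      rw [h0]
      exact T.sharp_zero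
    have h4 : aeval (0 : ι₁ ⊕ ι₂ → C) (P k) = 0 := by
      refine hPX k 0 ⟨?_, ?_⟩
      · rw [hX₁]
        exact fun l => aeval_zero_form ⟨D₁ l, hD₁ l, hgD₁ l⟩
      · rw [hX₂]
        exact fun l => aeval_zero_form ⟨D₂ l, hD₂ l, hgD₂ l⟩
    rw [h3, h4, map_zero]
    positivity
  obtain ⟨a, ha, ha1, i₀, hi₀⟩ := exists_normal T.toTiltPair h0
  have h3 := hs k (fun t => T.sharp (a * x t)) (by
    intro t
    rw [T.abs_sharp]
    exact ha1 t) (by
    rintro (l | l)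
    · rw [hG₁]
      have h4 := hY₁t (a • fun i => x (Sum.inl i)) (hY₁.2 a _ hx.1) l 1 (fun i => ha1 (Sum.inl i))
      rw [one_pow, mul_one] at h4
      exact h4.trans (hδ' k)
    · rw [hG₂]
      have h4 := hY₂t (a • fun i => x (Sum.inr i)) (hY₂.2 a _ hx.2) l 1 (fun i => ha1 (Sum.inr i))
      rw [one_pow, mul_one] at h4
      exact h4.trans (hδ' k))
  rw [hP'] at h3
  have h5 : (fun t => T.sharp (a * x t)) = fun t => T.sharp a * T.sharp (x t) := by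
    funext t
    rw [map_mul]
  rw [h5, aeval_smul_fin (hPD k), map_mul, map_pow, T.abs_sharp] at h3
  have hA : 0 < T.absF a := T.absF.pos ha
  have h6 : 1 ≤ T.absF a * B := by
    have h7 : T.absF a * T.absF (x i₀) = 1 := by
      rw [← map_mul]
      exact hi₀
    rw [← h7]
    exact mul_le_mul_of_nonneg_left (hB _) hA.le
  have h7 : T.absF a ^ DP k * T.absK (aeval (fun t => T.sharp (x t)) (P k)) ≤
      T.absF a ^ DP k * (ε * B ^ DP k) := by
    refine h3.trans ?_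
    calc ε = ε * 1 ^ DP k := by rw [one_pow, mul_one]
      _ ≤ ε * (T.absF a * B) ^ DP k :=
          mul_le_mul_of_nonneg_left (pow_le_pow_left₀ zero_le_one h6 _) hε.le
      _ = T.absF a ^ DP k * (ε * B ^ DP k) := by rw [mul_pow]; ring
  exact le_of_mul_le_mul_left h7 (pow_pos hA _)

end Pool.Agent.N150.JN
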