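import Pool.Agent.N150.JN.DimImage
set_option autoImplicit false

/-!
# Q1 for joins, cones and coverings
-/

open MvPolynomial Pool.Agent.Y129.TA Pool.Agent.Y129.TB Pool.Agent.R388.TP

set_option linter.unusedSectionVars false

namespace Pool.Agent.N150.JN

variable {p : ℕ} [hp : Fact p.Prime] {C F K E : Type} [Field C] [Field F] [CharP F p] [Field K]
  [Field E] [Algebra K C] [Algebra E F]

omit hp [CharP F p] [Algebra E F] [Field E] in
theorem infinite_base (T : TiltPair p C F) (K : Type) [Field K] [Algebra K C] : Infinite K := by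
  by_contra hfin
  rw [not_infinite_iff_finite] at hfin
  have hp0 : (p : K) ≠ 0 := fun h => T.p_ne (by rw [← map_natCast (algebraMap K C), h, map_zero])
  let u : Kˣ := Units.mk0 (p : K) hp0
  obtain ⟨m, hm, hu⟩ := isOfFinOrder_iff_pow_eq_one.1 (isOfFinOrder_of_finite u)
  have h1 : (p : K) ^ m = 1 := by
    have h4 := congrArg Units.val hu
    rw [Units.val_pow_eq_pow_val] at h4
    exact h4
  have h2 : (p : C) ^ m = 1 := by rw [← map_natCast (algebraMap K C), ← map_pow, h1, map_one]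
  have h3 : T.absK (p : C) ^ m = 1 := by rw [← map_pow, h2, map_one]
  exact (pow_lt_one₀ (T.absK.nonneg _) T.p_lt hm.ne').ne h3

/-- `X`, a subset of `C^(n+1)`, is the cone over a closed subset of `P^n` which is defined over `K`,
has dimension `d`, and for which Q1 holds. -/
structure Q1 {n : ℕ} (T : Tilting p C F) (K E : Type) [Field K] [Field E] [Algebra K C]
    [Algebra E F] (X : Set (Fin (n + 1) → C)) (d : ℕ) : Prop where
  closed : IsConeOver K X
  ge : DimGE X d
  le : DimLEOver K X d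
  approx : Approximable T.toTiltPair K E X d

/-- The cone over the join of `X₁` and `X₂` in the projective space of dimension `n₁ + n₂ + 1`: the
product of the cones. -/
def joinIn {C : Type} {n₁ n₂ : ℕ} (X₁ : Set (Fin (n₁ + 1) → C)) (X₂ : Set (Fin (n₂ + 1) → C)) :
    Set (Fin (n₁ + 1 + n₂ + 1) → C) :=
  {x | (fun i => x (Fin.castAdd (n₂ + 1) i)) ∈ X₁ ∧
    (fun j => x (Fin.natAdd (n₁ + 1) j : Fin (n₁ + 1 + (n₂ + 1)))) ∈ X₂}

section reindex

variable {σ τ : Type}

theorem cone_equiv {k L : Type} [Field k] [Field L] [Algebra k L] (e : τ ≃ σ) {Y : Set (σ → L)}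
    (h : IsConeOver k Y) : IsConeOver k {w : τ → L | (fun s => w (e.symm s)) ∈ Y} := by
  obtain ⟨⟨J, hJ⟩, hc⟩ := h
  constructor
  · let φ : MvPolynomial σ k →ₐ[k] MvPolynomial τ k := rename e.symm
    refine ⟨J.map φ, ?_⟩
    ext w
    rw [Set.mem_ofPred_eq, hJ, mem_zeroLocus_iff, mem_zeroLocus_iff]
    constructor
    · intro hw f hf
      have h1 : J.map φ ≤ RingHom.ker (aeval w : MvPolynomial τ k →ₐ[k] L) := by
        rw [Ideal.map_le_iff_le_comap]
        intro g hg
        rw [Ideal.mem_comap, RingHom.mem_ker]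
        change aeval w (rename e.symm g) = 0
        rw [aeval_rename]
        exact hw g hg
      exact h1 hf
    · intro hw f hf
      have h1 := hw _ (Ideal.mem_map_of_mem φ hf)
      change aeval w (rename e.symm f) = 0 at h1
      rw [aeval_rename] at h1
      exact h1
  · intro a y hy
    exact hc a _ hy

theorem approximable_equiv [IsAlgClosed F] (T : TiltPair p C F) (e : τ ≃ σ) {X : Set (σ → C)} {d : ℕ}
    (h : Approximable T K E X d) :
    Approximable T K E {w : τ → C | (fun s => w (e.symm s)) ∈ X} d := by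
  intro r P D hPD hPX ε hε
  obtain ⟨Y, hY1, hY2, hY3, hY4⟩ := h r (fun k => rename e (P k)) D
    (fun k => (hPD k).rename_isHomogeneous) (fun k x hx => by
      rw [aeval_rename]
      refine hPX k _ ?_
      change (fun s => x (e (e.symm s))) ∈ X
      simp only [Equiv.apply_symm_apply]
      exact hx) ε hε
  refine ⟨{w : τ → F | (fun s => w (e.symm s)) ∈ Y}, cone_equiv e hY1, dimGE_equiv e hY2, ?_, ?_⟩
  · obtain ⟨q, hq, hq0⟩ := hY3
    refine ⟨fun j => rename e.symm (q j), fun j => ?_, fun y hy hqy => ?_⟩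
    · obtain ⟨D, hD, h1⟩ := hq j
      exact ⟨D, hD, h1.rename_isHomogeneous⟩
    · have h1 := hq0 _ hy fun j => by
        have h2 := hqy j
        rw [eval_rename] at h2
        exact h2
      funext t
      have h2 := congrFun h1 (e t)
      simpa using h2
  · intro w hw k B hB
    have h1 := hY4 _ hw k B fun i => hB _
    rw [aeval_rename] at h1
    have h2 : (fun i => T.sharp (w (e.symm i))) ∘ e = fun t => T.sharp (w t) := by
      funext t
      simp
    rw [h2] at h1
    exact h1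

end reindex

/-- the equivalence of the index sets -/
def idx (n₁ n₂ : ℕ) : Fin (n₁ + 1 + n₂ + 1) ≃ Fin (n₁ + 1) ⊕ Fin (n₂ + 1) :=
  (finSumFinEquiv (m := n₁ + 1) (n := n₂ + 1)).symm

theorem joinIn_eq {n₁ n₂ : ℕ} (X₁ : Set (Fin (n₁ + 1) → C)) (X₂ : Set (Fin (n₂ + 1) → C)) :
    joinIn X₁ X₂ = {w | (fun s => w ((idx n₁ n₂).symm s)) ∈ join X₁ X₂} := by
  ext w
  have h1 : ∀ i, (idx n₁ n₂).symm (Sum.inl i) = Fin.castAdd (n₂ + 1) i := fun i => rfl
  have h2 : ∀ i, (idx n₁ n₂).symm (Sum.inr i) = Fin.natAdd (n₁ + 1) i := fun i => rfl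
  simp only [joinIn, join, Set.mem_ofPred_eq, h1, h2]

variable [IsAlgClosed C] [IsAlgClosed F]

/-- Q1 for joins. -/
theorem q1_join {n₁ n₂ d₁ d₂ : ℕ} (T : Tilting p C F) {X₁ : Set (Fin (n₁ + 1) → C)}
    {X₂ : Set (Fin (n₂ + 1) → C)} (h₁ : Q1 T K E X₁ d₁) (h₂ : Q1 T K E X₂ d₂) :
    Q1 T K E (joinIn X₁ X₂) (d₁ + d₂ + 1) := by
  classical
  obtain ⟨hc, hg, ha⟩ := approximable_join T h₁.closed h₂.closed h₁.approx h₂.approx
  refine ⟨?_, ?_, ?_, ?_⟩
  · rw [joinIn_eq]
    exact cone_equiv _ hc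
  · rw [joinIn_eq]
    exact dimGE_equiv _ hg
  · obtain ⟨q₁, hq₁, h0₁⟩ := h₁.le
    obtain ⟨q₂, hq₂, h0₂⟩ := h₂.le
    have hcard : Fintype.card (Fin (d₁ + 1) ⊕ Fin (d₂ + 1)) = d₁ + d₂ + 1 + 1 := by
      rw [Fintype.card_sum, Fintype.card_fin, Fintype.card_fin]
      omega
    let e : Fin (d₁ + d₂ + 1 + 1) ≃ Fin (d₁ + 1) ⊕ Fin (d₂ + 1) :=
      (Fintype.equivFinOfCardEq hcard).symm
    let q : Fin (d₁ + 1) ⊕ Fin (d₂ + 1) → MvPolynomial (Fin (n₁ + 1 + n₂ + 1)) K :=
      Sum.elim (fun j => rename (fun i => (Fin.castAdd (n₂ + 1) i : Fin (n₁ + 1 + (n₂ + 1)))) (q₁ j))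
        (fun j => rename (fun i => (Fin.natAdd (n₁ + 1) i : Fin (n₁ + 1 + (n₂ + 1)))) (q₂ j))
    have hform : ∀ a, IsForm (q a) := by
      rintro (a | a)
      · obtain ⟨D, hD, h⟩ := hq₁ a
        exact ⟨D, hD, h.rename_isHomogeneous⟩
      · obtain ⟨D, hD, h⟩ := hq₂ a
        exact ⟨D, hD, h.rename_isHomogeneous⟩
    refine ⟨fun j => q (e j), fun j => hform _, fun y hy hq => ?_⟩
    have hq' : ∀ a, aeval y (q a) = 0 := fun a => by
      have h3 := hq (e.symm a)
      change aeval y (q (e (e.symm a))) = 0 at h3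
      rw [Equiv.apply_symm_apply] at h3
      exact h3
    have h3 := h0₁ _ hy.1 fun j => by
      have h4 := hq' (Sum.inl j)
      simp only [q, Sum.elim_inl, aeval_rename] at h4
      exact h4
    have h5 := h0₂ _ hy.2 fun j => by
      have h4 := hq' (Sum.inr j)
      simp only [q, Sum.elim_inr, aeval_rename] at h4
      exact h4
    funext t
    refine Fin.addCases (m := n₁ + 1) (n := n₂ + 1) (motive := fun t => y t = 0) (fun i => ?_)
      (fun i => ?_) t
    · exact congrFun h3 i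
    · exact congrFun h5 i
  · rw [joinIn_eq]
    exact approximable_equiv _ _ ha

/-- Q1 for images of sections, with the dimension measured on the section. -/
theorem q1_image {m n d c e : ℕ} (T : Tilting p C F) (B : BaseField T K E)
    {Z : Set (Fin (m + 1) → C)} (hZ : Q1 T K E Z (d + c))
    (h : Fin c → MvPolynomial (Fin (m + 1)) K) (hh : ∀ j, IsForm (h j))
    (f : Fin (n + 1) → MvPolynomial (Fin (m + 1)) K) (he : 0 < e)
    (hf : ∀ j, (f j).IsHomogeneous e)
    (h0 : ∀ z ∈ Z, (∀ j, aeval z (h j) = 0) → (∀ j, aeval z (f j) = 0) → z = 0)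
    (hd : DimLEOver K {z | z ∈ Z ∧ ∀ j, aeval z (h j) = 0} d) :
    Q1 T K E (sectionImage Z h f) d := by
  classical
  haveI : Infinite C := IsAlgClosed.instInfinite
  haveI : Infinite K := infinite_base T.toTiltPair K
  obtain ⟨r, g, hg, hZg⟩ := exists_gens hZ.closed (nonempty_of_approximable T.toTiltPair hZ.approx)
  have himg : sectionImage Z h f = imageOver C (Sum.elim h g) f := by
    ext x
    constructor
    · rintro ⟨z, hz, h1, h2⟩
      refine ⟨z, ?_, h2⟩
      rintro (j | l)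
      · exact h1 j
      · rw [hZg] at hz
        exact hz l
    · rintro ⟨z, h1, h2⟩
      refine ⟨z, ?_, fun j => h1 (Sum.inl j), h2⟩
      rw [hZg]
      exact fun l => h1 (Sum.inr l)
  have hno : NoCommonZero C (Sum.elim h g) f := by
    intro z h1 h2
    refine h0 z ?_ (fun j => h1 (Sum.inl j)) h2
    rw [hZg]
    exact fun l => h1 (Sum.inr l)
  have hform : ∀ k, IsForm (Sum.elim h g k) := by
    rintro (j | l)
    · exact hh j
    · exact hg l
  have hle : DimLEOver K (sectionImage Z h f) d := by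
    rw [himg]
    refine dimLEOver_image hform he hf hno ?_
    obtain ⟨q, hq, hq0⟩ := hd
    refine ⟨q, hq, fun y hy => hq0 y ⟨?_, fun j => hy (Sum.inl j)⟩⟩
    rw [hZg]
    exact fun l => hy (Sum.inr l)
  have hU : (⋃ _ : Fin 1, sectionImage Z h f) = sectionImage Z h f := Set.iUnion_const _
  have h1 := main T B (N := 1) one_pos (c := fun _ => c) (m := fun _ => m) (e := fun _ => e)
    (fun _ => Z) (fun _ => Or.inr ⟨hZ.closed, hZ.approx⟩) (fun _ => h) (fun _ => hh) (fun _ => f)
    (fun _ => he) (fun _ => hf) (fun _ => h0) (by rw [hU]; exact hle)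
  rw [hU] at h1
  exact ⟨h1.1, h1.2.1, hle, h1.2.2⟩

/-- Q1 for the join of two disjoint closed subsets of the same projective space. -/
theorem q1_sum {n d₁ d₂ : ℕ} (T : Tilting p C F) (B : BaseField T K E)
    {X₁ X₂ : Set (Fin (n + 1) → C)} (h₁ : Q1 T K E X₁ d₁) (h₂ : Q1 T K E X₂ d₂)
    (hdis : ∀ x ∈ X₁, x ∈ X₂ → x = 0) :
    Q1 T K E {x | ∃ y ∈ X₁, ∃ z ∈ X₂, x = y + z} (d₁ + d₂ + 1) := by
  classical
  have hJ := q1_join T h₁ h₂
  let f : Fin (n + 1) → MvPolynomial (Fin (n + 1 + n + 1)) K := fun i =>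
    X (Fin.castAdd (n + 1) i : Fin (n + 1 + (n + 1))) + X (Fin.natAdd (n + 1) i : Fin (n + 1 + (n + 1)))
  have hf : ∀ i, (f i).IsHomogeneous 1 := fun i => (isHomogeneous_X _ _).add (isHomogeneous_X _ _)
  have hfe : ∀ (z : Fin (n + 1 + n + 1) → C) i, aeval z (f i) =
      z (Fin.castAdd (n + 1) i : Fin (n + 1 + (n + 1))) +
        z (Fin.natAdd (n + 1) i : Fin (n + 1 + (n + 1))) := by
    intro z i
    simp only [f, map_add, aeval_X]
  have himg : {x : Fin (n + 1) → C | ∃ y ∈ X₁, ∃ z ∈ X₂, x = y + z} =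
      sectionImage (joinIn X₁ X₂) (fun j : Fin 0 => j.elim0) f := by
    ext x
    constructor
    · rintro ⟨y, hy, z, hz, rfl⟩
      refine ⟨Fin.append (m := n + 1) (n := n + 1) y z, ⟨?_, ?_⟩, fun j => j.elim0, fun i => ?_⟩
      · have h1 : (fun i => Fin.append (m := n + 1) (n := n + 1) y z (Fin.castAdd (n + 1) i)) = y :=
          funext fun i => Fin.append_left _ _ _
        rw [h1]
        exact hy
      · have h1 : (fun i => Fin.append (m := n + 1) (n := n + 1) y z (Fin.natAdd (n + 1) i)) = z :=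
          funext fun i => Fin.append_right _ _ _
        rw [h1]
        exact hz
      · rw [hfe, Fin.append_left, Fin.append_right]
        rfl
    · rintro ⟨w, hw, -, hx⟩
      exact ⟨_, hw.1, _, hw.2, funext fun i => by rw [hx i, hfe]; rfl⟩
  rw [himg]
  refine q1_image (c := 0) T B hJ _ (fun j => j.elim0) f one_pos hf ?_ ?_
  · intro z hz _ h0
    have h3 : (fun i => z (Fin.castAdd (n + 1) i : Fin (n + 1 + (n + 1)))) = 0 := by
      refine hdis _ hz.1 ?_
      have h4 := h₂.closed.2 (-1) _ hz.2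
      have h5 : (-1 : C) • (fun j => z (Fin.natAdd (n + 1) j : Fin (n + 1 + (n + 1)))) =
          fun i => z (Fin.castAdd (n + 1) i : Fin (n + 1 + (n + 1))) := by
        funext i
        have h6 := h0 i
        rw [hfe] at h6
        simp only [Pi.smul_apply, smul_eq_mul]
        linear_combination -h6
      rwa [h5] at h4
    funext t
    refine Fin.addCases (m := n + 1) (n := n + 1) (motive := fun t => z t = 0) (fun i => ?_)
      (fun i => ?_) t
    · exact congrFun h3 i
    · have h6 := h0 i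
      rw [hfe] at h6
      have h7 := congrFun h3 i
      simp only [Pi.zero_apply] at h7
      rw [h7, zero_add] at h6
      exact h6
  · obtain ⟨q, hq, hq0⟩ := hJ.le
    exact ⟨q, hq, fun y hy => hq0 y hy.1⟩

end Pool.Agent.N150.JN
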